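import Pool.Agent.Helper37.KD.DefsC
import Pool.Agent.Helper37.KD.St.A1
import Pool.Agent.Helper37.KD.St.A2
import Pool.Agent.Helper37.KD.St.C4

/-! KD Part I, piece D6: single x-shifts -/

namespace KD.I.D6

open Finset

theorem he_zero {G : Type*} [Fintype G] [AddCommGroup G] (u : G → ℝ) : he u 0 = 0 := by
  unfold he
  simp

theorem he_nonneg {G : Type*} [Fintype G] [AddCommGroup G] (u : G → ℝ) (w : G) : 0 ≤ he u w :=
  Finset.sum_nonneg (fun _ _ => sq_nonneg _)

theorem he_sum_le {G : Type*} [Fintype G] [AddCommGroup G] (u : G → ℝ) {ι : Type*} (t : Finset ι)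
    (f : ι → G) : √(he u (∑ i ∈ t, f i)) ≤ ∑ i ∈ t, √(he u (f i)) := by
  classical
  induction t using Finset.induction_on with
  | empty => simp [he_zero]
  | insert i t hi ih =>
      rw [Finset.sum_insert hi, Finset.sum_insert hi]
      exact (he_add_le u _ _).trans (by linarith)

theorem n1_zero {d N : ℕ} : n1 (0 : V d N) = 0 := by
  unfold n1
  simp

theorem n1_neg {d N : ℕ} (x : V d N) : n1 (-x) = n1 x := by
  unfold n1
  refine Finset.sum_congr rfl (fun i _ => ?_)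
  rw [Pi.neg_apply, ZMod.natAbs_valMinAbs_neg]

theorem n1_ee {d N : ℕ} [NeZero N] (hN : 2 ≤ N) (i : Fin d) : n1 (ee i : V d N) ≤ 1 := by
  have h1 : ((1 : ZMod N).valMinAbs).natAbs = 1 := by
    have : (1 : ZMod N).val = 1 := by
      rw [ZMod.val_one_eq_one_mod]
      exact Nat.mod_eq_of_lt (by omega)
    rw [ZMod.valMinAbs_def_pos, this, if_pos (by omega)]
    rfl
  unfold n1 ee
  rw [Finset.sum_eq_single i]
  · rw [Pi.single_eq_same, h1]
    norm_num
  · intro j _ hj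
    rw [Pi.single_eq_of_ne hj]
    simp
  · intro h
    exact absurd (Finset.mem_univ i) h

/-- pointwise: comparison of square roots under a two-sided exponential bound -/
theorem sq_diff {a b δ : ℝ} (ha : 0 ≤ a) (hb : 0 ≤ b) (h1 : a ≤ Real.exp (2 * δ) * b)
    (h2 : b ≤ Real.exp (2 * δ) * a) (hδ : 0 ≤ δ) (hδ1 : δ ≤ 1 / 2) :
    (√a - √b) ^ 2 ≤ (2 * δ) ^ 2 * (a + b) := by
  have e1 : Real.exp (2 * δ) = Real.exp δ ^ 2 := by
    rw [two_mul, Real.exp_add, sq]
  have hexp : Real.exp δ ≤ 1 + 2 * δ := by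
    have := Real.abs_exp_sub_one_le (x := δ) (by rw [abs_of_nonneg hδ]; linarith)
    have h := (abs_le.1 this).2
    rw [abs_of_nonneg hδ] at h
    linarith
  have s1 : √a ≤ Real.exp δ * √b := by
    rw [e1] at h1
    have := Real.sqrt_le_sqrt h1
    rwa [Real.sqrt_mul (by positivity), Real.sqrt_sq (Real.exp_pos δ).le] at this
  have s2 : √b ≤ Real.exp δ * √a := by
    rw [e1] at h2
    have := Real.sqrt_le_sqrt h2
    rwa [Real.sqrt_mul (by positivity), Real.sqrt_sq (Real.exp_pos δ).le] at this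
  have pa := Real.sqrt_nonneg a
  have pb := Real.sqrt_nonneg b
  have d1 : √a - √b ≤ 2 * δ * √b := by nlinarith
  have d2 : √b - √a ≤ 2 * δ * √a := by nlinarith
  have qa := Real.sq_sqrt ha
  have qb := Real.sq_sqrt hb
  have hd2 : 0 ≤ (2 * δ) ^ 2 := sq_nonneg _
  rcases le_total (√b) (√a) with h | h
  · have : (√a - √b) ^ 2 ≤ (2 * δ * √b) ^ 2 := pow_le_pow_left₀ (by linarith) d1 2
    rw [mul_pow, qb] at this
    nlinarith
  · have : (√b - √a) ^ 2 ≤ (2 * δ * √a) ^ 2 := pow_le_pow_left₀ (by linarith) d2 2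
    rw [mul_pow, qa] at this
    nlinarith

theorem he_ee_le {d : ℕ} {s c0 C0 C1 : ℝ} (E : Env d s c0 C0 C1) {ν : E.G → ℝ} (hν : IsP ν)
    {k : ℕ} (hk : k ≤ E.K) (i : Fin d) :
    he (lev E.q ν (k + 1)) (xs (ee i)) ≤ 2 / E.R k ^ 2 := by
  have hR := E.R_pos k
  have hu : ∀ z, 0 ≤ lev E.q ν (k + 1) z := fun z => (E.u_pos hν hk z).le
  have hsum : ∑ z, lev E.q ν (k + 1) z = 1 := E.u_sum hν (by omega)
  rcases le_or_gt 1 (E.R k) with h1 | h1
  · have hN : 2 ≤ E.N := by
      have := E.hN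
      have h2 : 2 ≤ 2 ^ (E.K + 8) := by
        calc 2 = 2 ^ 1 := rfl
          _ ≤ 2 ^ (E.K + 8) := Nat.pow_le_pow_right (by norm_num) (by omega)
      omega
    have hee : n1 (ee i : V d E.N) ≤ 1 := n1_ee hN i
    set δ : ℝ := 1 / (2 * E.R k) with hδ
    have hδ0 : 0 ≤ δ := by positivity
    have hδ1 : δ ≤ 1 / 2 := by
      rw [hδ]
      exact one_div_le_one_div_of_le (by norm_num) (by linarith)
    have e2 : 2 * δ = 1 / E.R k := by
      rw [hδ]
      field_simp
    have hnm : ∀ w : V d E.N, n1 w ≤ 1 → E.nm k (xs w) ≤ 2 * δ := by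
      intro w hw
      unfold Env.nm nrm xs
      simp only [n1_zero, zero_div, add_zero]
      rw [e2]
      exact div_le_div_of_nonneg_right hw hR.le
    have hpt : ∀ z, (√(lev E.q ν (k + 1) (z + xs (ee i))) - √(lev E.q ν (k + 1) z)) ^ 2 ≤
        (2 * δ) ^ 2 * (lev E.q ν (k + 1) (z + xs (ee i)) + lev E.q ν (k + 1) z) := by
      intro z
      refine sq_diff (hu _) (hu _) ?_ ?_ hδ0 hδ1
      · refine (E.u_lip hν hk z (xs (ee i))).trans ?_
        exact mul_le_mul_of_nonneg_right (Real.exp_le_exp.2 (hnm _ hee)) (hu _)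
      · have h3 := E.u_lip hν hk (z + xs (ee i)) (xs (-(ee i)))
        have h4 : z + xs (ee i) + xs (-(ee i)) = z := by
          unfold xs
          refine Prod.ext ?_ ?_
          · simp
          · simp
        rw [h4] at h3
        refine h3.trans ?_
        exact mul_le_mul_of_nonneg_right (Real.exp_le_exp.2 (hnm _ (by rw [n1_neg]; exact hee)))
          (hu _)
    unfold he
    refine (Finset.sum_le_sum (fun z _ => hpt z)).trans ?_
    rw [← Finset.mul_sum, Finset.sum_add_distrib, sum_shift, hsum, e2]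
    rw [div_pow, one_pow]
    apply le_of_eq
    ring
  · have h2 := he_le_two (lev E.q ν (k + 1)) (xs (ee i)) hu
    rw [hsum] at h2
    refine h2.trans ?_
    rw [le_div_iff₀ (by positivity)]
    nlinarith

/-- single x-shifts of `u_{k+1}` (from `x_diff_he` in group C and log-Lipschitz) -/
theorem he_xs_le (s c0 C0 C1 : ℝ) (d : ℕ) (hs : 0 < s) : ∃ C : ℝ, 0 < C ∧
    ∀ (E : Env d s c0 C0 C1) (ν : E.G → ℝ), IsP ν → ∀ k ≤ E.K, ∀ w : V d E.N,
      he (lev E.q ν (k + 1)) (xs w) ≤ C * (n1 w / E.R k) ^ 2 * E.Xk ν k + C / E.R k ^ 2 := by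
  obtain ⟨C, hC, H⟩ := x_diff_he s c0 C0 C1 d hs
  refine ⟨C ^ 2 + 4 * d ^ 2 + 1, by positivity, ?_⟩
  intro E ν hν k hk w
  have hR := E.R_pos k
  set u := lev E.q ν (k + 1) with hu
  set X := E.Xk ν k with hX
  have hX0 : 0 ≤ X := by
    rw [hX]
    exact Finset.sum_nonneg (fun z _ => mul_nonneg (E.q_pos hk z).le (he_nonneg _ _))
  -- one coordinate
  have hc : ∀ i, √(he u (xs (Pi.single i (w i)))) ≤
      ((w i).valMinAbs.natAbs : ℝ) / 2 * (C / E.R k * √X) + √2 / E.R k := by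
    intro i
    set m := (w i).valMinAbs with hm
    set n := m.natAbs with hn
    have hw : w i = (m : ZMod E.N) := (ZMod.coe_valMinAbs (w i)).symm
    have hsym : he u (xs (Pi.single i (w i))) = he u (n • xs (ee i)) := by
      have hxs : ∀ c : ℕ, (xs (Pi.single i (c : ZMod E.N)) : GG d E.N) = c • xs (ee i) := by
        intro c
        unfold xs ee
        refine Prod.ext ?_ ?_
        · funext j
          by_cases hj : j = i
          · subst hj
            simp
          · simp [hj]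
        · simp
      rcases Int.natAbs_eq m with h | h
      · rw [hw, h, ← hn]
        rw [← hxs]
        push_cast
        rfl
      · rw [hw, h, ← hn]
        rw [← hxs, ← he_neg]
        congr 1
        unfold xs
        refine Prod.ext ?_ ?_
        · simp only [Prod.neg_mk]
          rw [← Pi.single_neg]
          push_cast
          simp
        · simp
    rw [hsym]
    have hdm : n • (xs (ee i) : GG d E.N) = (n / 2) • xs (ee i + ee i) + (n % 2) • xs (ee i) := by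
      have h1 : (xs (ee i + ee i) : GG d E.N) = 2 • xs (ee i) := by
        unfold xs
        refine Prod.ext ?_ ?_
        · simp [two_smul]
        · simp
      rw [h1, smul_smul, ← add_smul]
      congr 1
      omega
    rw [hdm]
    refine (he_add_le u _ _).trans ?_
    have a1 : √(he u ((n / 2) • xs (ee i + ee i))) ≤ (n : ℝ) / 2 * (C / E.R k * √X) := by
      refine (he_nsmul_le u _ _).trans ?_
      have h2 : √(he u (xs (ee i + ee i))) ≤ C / E.R k * √X := by
        have h3 := Real.sqrt_le_sqrt (H E ν hν k hk i)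
        rwa [Real.sqrt_mul (sq_nonneg _), Real.sqrt_sq (by positivity)] at h3
      have h4 : ((n / 2 : ℕ) : ℝ) ≤ (n : ℝ) / 2 := Nat.cast_div_le
      exact mul_le_mul h4 h2 (Real.sqrt_nonneg _) (by positivity)
    have a2 : √(he u ((n % 2) • xs (ee i))) ≤ √2 / E.R k := by
      refine (he_nsmul_le u _ _).trans ?_
      have h2 : √(he u (xs (ee i))) ≤ √2 / E.R k := by
        have h3 := Real.sqrt_le_sqrt (he_ee_le E hν hk i)
        rwa [Real.sqrt_div' _ (sq_nonneg _), Real.sqrt_sq hR.le] at h3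
      have h4 : ((n % 2 : ℕ) : ℝ) ≤ 1 := by
        have : n % 2 ≤ 1 := by omega
        exact_mod_cast this
      calc ((n % 2 : ℕ) : ℝ) * √(he u (xs (ee i))) ≤ 1 * (√2 / E.R k) :=
            mul_le_mul h4 h2 (Real.sqrt_nonneg _) zero_le_one
        _ = _ := one_mul _
    exact add_le_add a1 a2
  have hw : (xs w : GG d E.N) = ∑ i, xs (Pi.single i (w i)) := by
    unfold xs
    refine Prod.ext ?_ ?_
    · rw [Prod.fst_sum]
      exact (Finset.univ_sum_single w).symm
    · rw [Prod.snd_sum]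
      simp
  have h1 : √(he u (xs w)) ≤ n1 w / 2 * (C / E.R k * √X) + d * (√2 / E.R k) := by
    rw [hw]
    refine (he_sum_le u _ _).trans ((Finset.sum_le_sum (fun i _ => hc i)).trans ?_)
    rw [Finset.sum_add_distrib, ← Finset.sum_mul, ← Finset.sum_div]
    apply le_of_eq
    simp [n1]
  have hn : 0 ≤ n1 w := Finset.sum_nonneg (fun i _ => Nat.cast_nonneg _)
  have h2 := Real.sq_sqrt (he_nonneg u (xs w))
  rw [← h2]
  have h3 : √(he u (xs w)) ^ 2 ≤ (n1 w / 2 * (C / E.R k * √X) + d * (√2 / E.R k)) ^ 2 :=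
    pow_le_pow_left₀ (Real.sqrt_nonneg _) h1 2
  refine h3.trans ?_
  have h4 : (n1 w / 2 * (C / E.R k * √X) + d * (√2 / E.R k)) ^ 2 ≤
      2 * (n1 w / 2 * (C / E.R k * √X)) ^ 2 + 2 * (d * (√2 / E.R k)) ^ 2 := by
    nlinarith [sq_nonneg (n1 w / 2 * (C / E.R k * √X) - d * (√2 / E.R k))]
  refine h4.trans ?_
  have h5 : 2 * (n1 w / 2 * (C / E.R k * √X)) ^ 2 = C ^ 2 / 2 * ((n1 w / E.R k) ^ 2 * X) := by
    rw [mul_pow, mul_pow, Real.sq_sqrt hX0]
    ring
  have h6 : 2 * (d * (√2 / E.R k)) ^ 2 = 4 * d ^ 2 * (1 / E.R k ^ 2) := by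
    rw [mul_pow, div_pow, Real.sq_sqrt (by norm_num)]
    ring
  rw [h5, h6]
  have h7 : 0 ≤ (n1 w / E.R k) ^ 2 * X := mul_nonneg (sq_nonneg _) hX0
  have h8 : 0 ≤ 1 / E.R k ^ 2 := by positivity
  have h9 : (C ^ 2 + 4 * (d : ℝ) ^ 2 + 1) * (n1 w / E.R k) ^ 2 * X + (C ^ 2 + 4 * (d : ℝ) ^ 2 + 1) / E.R k ^ 2
      = (C ^ 2 + 4 * (d : ℝ) ^ 2 + 1) * ((n1 w / E.R k) ^ 2 * X)
        + (C ^ 2 + 4 * (d : ℝ) ^ 2 + 1) * (1 / E.R k ^ 2) := by ring
  rw [h9]
  have c1 : C ^ 2 / 2 ≤ C ^ 2 + 4 * (d : ℝ) ^ 2 + 1 := by nlinarith [sq_nonneg C, sq_nonneg (d : ℝ)]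
  have c2 : 4 * (d : ℝ) ^ 2 ≤ C ^ 2 + 4 * (d : ℝ) ^ 2 + 1 := by nlinarith [sq_nonneg C]
  exact add_le_add (mul_le_mul_of_nonneg_right c1 h7) (mul_le_mul_of_nonneg_right c2 h8)

end KD.I.D6
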