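import Pool.Agent.Helper37.KD.DefsC
import Pool.Agent.Helper37.KD.St.A2
import Pool.Agent.Helper37.KD.St.B2
import Pool.Agent.Helper37.KD.St.B4
import Pool.Agent.Helper37.KD.St.F6

/-! KD Part I, piece G3: iterated drift for the chain -/

namespace KD.I.G3

open Finset

theorem Am_zero {d N : ℕ} (z : GG d N) : Am 0 z = z := by
  unfold Am
  simp

theorem Am_Am {d N : ℕ} (m : ℕ) (z : GG d N) : Am m (Am 1 z) = Am (m + 1) z := by
  unfold Am
  simp only [one_smul, add_smul]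
  refine Prod.ext ?_ rfl
  simp only
  abel

/-- iterated drift for the chain (from `drift_step`, `drift_iter`, `step_isP`) -/
theorem drift_chain (s lam Lam c0 C0 C1 : ℝ) (d : ℕ) (hd : 1 ≤ d) (hs : 0 < s) (hs1 : s < 1)
    (hlam : 0 < lam) (hLam : lam ≤ Lam) (hC0 : 0 < C0) (hC1 : 0 < C1) : ∃ C : ℝ, 0 < C ∧
    ∀ K : ℕ, ∃ CK ε0 : ℝ, 0 < CK ∧ 0 < ε0 ∧
    ∀ (E : Env d s c0 C0 C1), E.K = K → E.ε ≤ ε0 →
    ∀ (M0 : ℝ) (a : ℕ → ℕ → E.Θ → E.G → ℝ), (∀ n, E.S.Coef lam Lam M0 (a n)) → ∀ k ≤ K, ∀ n τ : ℕ,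
      ∑ z, (√(lev E.q (E.chain a (n + τ)) (k + 1) z) - √(lev E.q (E.chain a n) (k + 1) (Am τ z))) ^ 2
        ≤ C * τ * ∑ m ∈ Finset.Ico n (n + τ), (E.ε ^ 2 / tim s k * (E.Ik (E.chain a m) k
              + E.Ek (a m) (E.chain a m) k
              + if k = 0 then 0 else E.Ik (E.chain a m) (k - 1) + E.Ek (a m) (E.chain a m) (k - 1))
            + (∑ j ∈ range (k + 1), √(E.Yk (E.chain a (m + 1)) j)) ^ 2 / E.R k ^ 2 + CK * E.ε ^ 4)
          + C * E.ε * ∑ m ∈ Finset.Ico n (n + τ), E.Ik (E.chain a m) k := by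
  obtain ⟨C, hC, H⟩ := drift_step s lam Lam c0 C0 C1 d hd hs hs1 hlam hLam hC0 hC1
  have hL : 0 < Lam := lt_of_lt_of_le hlam hLam
  refine ⟨6 * C ^ 2 + 2 * Lam + 1, by positivity, fun K => ?_⟩
  obtain ⟨CK, ε1, hCK, hε1, H1⟩ := H K
  obtain ⟨ε2, hε2, H2⟩ := chain_isP s lam Lam c0 C0 C1 d hs hlam hLam hC0 K
  refine ⟨6 * CK ^ 2, min ε1 ε2, by positivity, lt_min hε1 hε2, ?_⟩
  intro E hEK hEε M0 a ha k hk n τ
  have hP : ∀ m, IsP (E.chain a m) := H2 E hEK (hEε.trans (min_le_right _ _)) M0 a ha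
  have hkK : k ≤ E.K := by rw [hEK]; exact hk
  have hε := E.hε
  have hR := E.R_pos k
  have ht := tim_pos s k
  set C' : ℝ := 6 * C ^ 2 + 2 * Lam + 1 with hC'
  -- the four sequences
  set P : ℕ → ℝ := fun m => E.Ik (E.chain a m) k + E.Ek (a m) (E.chain a m) k
      + if k = 0 then 0 else E.Ik (E.chain a m) (k - 1) + E.Ek (a m) (E.chain a m) (k - 1) with hPd
  set Y : ℕ → ℝ := fun m => ∑ j ∈ range (k + 1), √(E.Yk (E.chain a (m + 1)) j) with hYd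
  set D : ℕ → ℝ := fun m =>
    √(∑ z, (√(lev E.q (E.chain a (n + m)) (k + 1) z) - √(lev E.q (E.chain a n) (k + 1) (Am m z))) ^ 2)
    with hDd
  set B : ℕ → ℝ := fun m => E.ε * Lam * E.Ik (E.chain a (n + m)) k with hBd
  set G : ℕ → ℝ := fun m => C * E.ε / √(tim s k) * √(P (n + m)) + C / E.R k * Y (n + m)
    + CK * E.ε ^ 2 with hGd
  have hI : ∀ m, 0 ≤ E.Ik (E.chain a m) k := fun m => Ik_nonneg E (hP m) hkK
  have hP0 : ∀ m, 0 ≤ P m := by
    intro m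
    have h1 := Ek_nonneg E (a m) (hP m) hkK
    have h2 : 0 ≤ (if k = 0 then 0 else E.Ik (E.chain a m) (k - 1) +
        E.Ek (a m) (E.chain a m) (k - 1) : ℝ) := by
      split_ifs with h
      · exact le_refl 0
      · exact add_nonneg (Ik_nonneg E (hP m) (by omega)) (Ek_nonneg E (a m) (hP m) (by omega))
    have := hI m
    simp only [hPd]
    linarith
  have hY0 : ∀ m, 0 ≤ Y m := fun m => Finset.sum_nonneg (fun j _ => Real.sqrt_nonneg _)
  have hD0 : ∀ m, 0 ≤ D m := fun m => Real.sqrt_nonneg _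
  have hB0 : ∀ m, 0 ≤ B m := fun m => mul_nonneg (by positivity) (hI _)
  have hG0 : ∀ m, 0 ≤ G m := by
    intro m
    have := hY0 (n + m)
    have h1 : 0 ≤ C * E.ε / √(tim s k) * √(P (n + m)) := by positivity
    have h2 : 0 ≤ C / E.R k * Y (n + m) := mul_nonneg (by positivity) this
    have h3 : 0 ≤ CK * E.ε ^ 2 := by positivity
    simp only [hGd]
    linarith
  have hDz : D 0 = 0 := by
    simp only [hDd, add_zero, Am_zero, sub_self]
    simp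
  have hstep : ∀ m < τ, D (m + 1) ≤ √(D m ^ 2 + B m) + G m := by
    intro m _
    have h1 := H1 E hEK (hEε.trans (min_le_left _ _)) M0 (a (n + m)) (ha (n + m))
      (E.chain a (n + m)) (hP (n + m)) k hk
      (fun z => √(lev E.q (E.chain a n) (k + 1) (Am m z))) (fun z => Real.sqrt_nonneg _)
    have h2 : E.step (a (n + m)) (E.chain a (n + m)) = E.chain a (n + (m + 1)) := rfl
    have h2' : E.chain a (n + m + 1) = E.chain a (n + (m + 1)) := rfl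
    have h3 : D m ^ 2 = ∑ z, (√(lev E.q (E.chain a (n + m)) (k + 1) z)
        - √(lev E.q (E.chain a n) (k + 1) (Am m z))) ^ 2 :=
      Real.sq_sqrt (Finset.sum_nonneg (fun z _ => sq_nonneg _))
    rw [h2] at h1
    simp only [Am_Am] at h1
    simp only [hBd, h3, hGd, hPd, hYd, h2']
    simp only [hDd]
    exact h1
  have hfin := drift_iter D G B τ hD0 hG0 hB0 hDz hstep
  have hsq : D τ ^ 2 = ∑ z, (√(lev E.q (E.chain a (n + τ)) (k + 1) z)
      - √(lev E.q (E.chain a n) (k + 1) (Am τ z))) ^ 2 :=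
    Real.sq_sqrt (Finset.sum_nonneg (fun z _ => sq_nonneg _))
  rw [← hsq]
  have hSG : 0 ≤ ∑ m ∈ range τ, G m := Finset.sum_nonneg (fun m _ => hG0 m)
  have hSB : 0 ≤ ∑ m ∈ range τ, B m := Finset.sum_nonneg (fun m _ => hB0 m)
  have e1 : D τ ^ 2 ≤ 2 * (∑ m ∈ range τ, G m) ^ 2 + 2 * ∑ m ∈ range τ, B m := by
    have h1 : D τ ^ 2 ≤ (∑ m ∈ range τ, G m + √(∑ m ∈ range τ, B m)) ^ 2 :=
      pow_le_pow_left₀ (hD0 τ) hfin 2
    have h2 := Real.sq_sqrt hSB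
    nlinarith only [h1, h2, sq_nonneg (∑ m ∈ range τ, G m - √(∑ m ∈ range τ, B m))]
  have e2 : (∑ m ∈ range τ, G m) ^ 2 ≤ τ * ∑ m ∈ range τ, G m ^ 2 := by
    have := sq_sum_le_card_mul_sum_sq (s := range τ) (f := G)
    simpa using this
  have e3 : ∀ m, G m ^ 2 ≤ 3 * (C ^ 2 * (E.ε ^ 2 / tim s k * P (n + m))
      + C ^ 2 * (Y (n + m) ^ 2 / E.R k ^ 2) + CK ^ 2 * E.ε ^ 4) := by
    intro m
    have h1 : (C * E.ε / √(tim s k) * √(P (n + m))) ^ 2 = C ^ 2 * (E.ε ^ 2 / tim s k * P (n + m)) := by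
      rw [mul_pow, div_pow, Real.sq_sqrt (hP0 _), Real.sq_sqrt ht.le]
      ring
    have h2 : (C / E.R k * Y (n + m)) ^ 2 = C ^ 2 * (Y (n + m) ^ 2 / E.R k ^ 2) := by
      rw [mul_pow, div_pow]
      ring
    have h3 : (CK * E.ε ^ 2) ^ 2 = CK ^ 2 * E.ε ^ 4 := by ring
    rw [← h1, ← h2, ← h3]
    simp only [hGd]
    nlinarith only [sq_nonneg (C * E.ε / √(tim s k) * √(P (n + m)) - C / E.R k * Y (n + m)),
      sq_nonneg (C * E.ε / √(tim s k) * √(P (n + m)) - CK * E.ε ^ 2),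
      sq_nonneg (C / E.R k * Y (n + m) - CK * E.ε ^ 2)]
  have e4 : ∀ m, 2 * (3 * (C ^ 2 * (E.ε ^ 2 / tim s k * P (n + m))
      + C ^ 2 * (Y (n + m) ^ 2 / E.R k ^ 2) + CK ^ 2 * E.ε ^ 4)) ≤
      C' * (E.ε ^ 2 / tim s k * P (n + m) + Y (n + m) ^ 2 / E.R k ^ 2
        + 6 * CK ^ 2 * E.ε ^ 4) := by
    intro m
    have h1 : 0 ≤ E.ε ^ 2 / tim s k * P (n + m) := mul_nonneg (by positivity) (hP0 _)
    have h2 : 0 ≤ Y (n + m) ^ 2 / E.R k ^ 2 := by positivity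
    have h3 : 0 ≤ CK ^ 2 * E.ε ^ 4 := by positivity
    have h4 : 0 ≤ C ^ 2 := sq_nonneg C
    have k1 : 6 * C ^ 2 ≤ C' := by rw [hC']; linarith
    have k2 : 1 ≤ C' := by rw [hC']; nlinarith only [hlam, hLam]
    have m1 := mul_le_mul_of_nonneg_right k1 h1
    have m2 := mul_le_mul_of_nonneg_right k1 h2
    have m3 := mul_le_mul_of_nonneg_right k2 h3
    nlinarith only [m1, m2, m3]
  rw [Finset.sum_Ico_eq_sum_range, Finset.sum_Ico_eq_sum_range]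
  have hτ : n + τ - n = τ := by omega
  rw [hτ]
  have e5 : 2 * (∑ m ∈ range τ, G m) ^ 2 ≤ C' * τ * ∑ m ∈ range τ,
      (E.ε ^ 2 / tim s k * P (n + m) + Y (n + m) ^ 2 / E.R k ^ 2 + 6 * CK ^ 2 * E.ε ^ 4) := by
    have h1 : ∑ m ∈ range τ, 2 * G m ^ 2 ≤ ∑ m ∈ range τ, C' *
        (E.ε ^ 2 / tim s k * P (n + m) + Y (n + m) ^ 2 / E.R k ^ 2 + 6 * CK ^ 2 * E.ε ^ 4) :=
      Finset.sum_le_sum (fun m _ => by
        have := e3 m
        have := e4 m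
        linarith)
    rw [← Finset.mul_sum, ← Finset.mul_sum] at h1
    have h2 : (0 : ℝ) ≤ τ := Nat.cast_nonneg τ
    have h3 := mul_le_mul_of_nonneg_left h1 h2
    nlinarith only [e2, h3]
  have e6 : 2 * ∑ m ∈ range τ, B m ≤ C' * E.ε * ∑ m ∈ range τ, E.Ik (E.chain a (n + m)) k := by
    have h1 : ∑ m ∈ range τ, B m = E.ε * Lam * ∑ m ∈ range τ, E.Ik (E.chain a (n + m)) k := by
      simp only [hBd]
      rw [Finset.mul_sum]
    rw [h1]
    have h2 : 0 ≤ ∑ m ∈ range τ, E.Ik (E.chain a (n + m)) k := Finset.sum_nonneg (fun m _ => hI _)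
    have h3 : 2 * Lam ≤ C' := by
      rw [hC']
      nlinarith only [hs, hs1, sq_nonneg C]
    have h4 := mul_le_mul_of_nonneg_right h3 (mul_nonneg hε.le h2)
    linarith
  exact e1.trans (add_le_add e5 e6)

end KD.I.G3
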